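import Pool.Agent.H3.BI.Stm2

set_option autoImplicit false

open scoped ENNReal
open Finset MeasureTheory

namespace Pool.Agent.H86.BD

open Pool.Agent.H3.BI

/-! ### norms -/

noncomputable def ev {d : ℕ} (x : Site d) : EuclideanSpace ℝ (Fin d) :=
  WithLp.toLp 2 (fun i => (x i : ℝ))

theorem nrm_eq {d : ℕ} (x : Site d) : nrm x = ‖ev x‖ := by
  unfold nrm nsq ev
  rw [EuclideanSpace.norm_eq]
  congr 1
  apply Finset.sum_congr rfl
  intro i _
  simp

theorem ev_sub {d : ℕ} (x z : Site d) : ev (x - z) = ev x - ev z := by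
  unfold ev
  ext i
  simp

theorem nrm_sub_le {d : ℕ} (x z : Site d) : nrm (x - z) ≤ nrm x + nrm z := by
  rw [nrm_eq, nrm_eq, nrm_eq, ev_sub]
  exact norm_sub_le _ _

theorem nrm_le_add {d : ℕ} (x z : Site d) : nrm x ≤ nrm (x - z) + nrm z := by
  rw [nrm_eq, nrm_eq, nrm_eq, ev_sub]
  have := norm_add_le (ev x - ev z) (ev z)
  simpa using this

theorem nrm_le_add' {d : ℕ} (x z : Site d) : nrm z ≤ nrm (x - z) + nrm x := by
  rw [nrm_eq, nrm_eq, nrm_eq, ev_sub]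
  have := norm_sub_le (ev x) (ev x - ev z)
  have h2 : ev x - (ev x - ev z) = ev z := by abel
  rw [h2] at this
  linarith

theorem one_le_nrm {d : ℕ} (z : Site d) (hz : 0 < nrm z) : 1 ≤ nrm z := by
  have h1 : (1 : ℝ) ≤ nsq z := by
    have h2 : (0 : ℝ) < nsq z := by
      rw [← nrm_sq]
      positivity
    have h3 : nsq z = ((∑ i, (z i) ^ 2 : ℤ) : ℝ) := by
      unfold nsq
      push_cast
      rfl
    rw [h3] at h2 ⊢
    have h4 : (0 : ℤ) < ∑ i, (z i) ^ 2 := by exact_mod_cast h2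
    have h5 : (1 : ℤ) ≤ ∑ i, (z i) ^ 2 := h4
    exact_mod_cast h5
  unfold nrm
  rw [← Real.sqrt_one]
  exact Real.sqrt_le_sqrt h1

/-! ### powers -/

theorem bt_pos {d : ℕ} (hd : 3 ≤ d) : 0 < bt d := by
  unfold bt
  have : (3 : ℝ) ≤ d := by exact_mod_cast hd
  linarith

theorem rp_sub (u v β : ℝ) (hu : 0 < u) (huv : u ≤ v) (hβ : 0 < β) :
    u ^ (-β) - v ^ (-β) ≤ β * (v - u) * u ^ (-β - 1) := by
  have hv : 0 < v := lt_of_lt_of_le hu huv
  have h1 : v ^ (-β) = u ^ (-β) * (v / u) ^ (-β) := by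
    rw [Real.div_rpow hv.le hu.le]
    have : u ^ (-β) ≠ 0 := (Real.rpow_pos_of_pos hu _).ne'
    field_simp
  have h2 : 1 - β * (v / u - 1) ≤ (v / u) ^ (-β) := by
    have hvu : 0 < v / u := div_pos hv hu
    rw [Real.rpow_def_of_pos hvu]
    have h3 := Real.log_le_sub_one_of_pos hvu
    have h4 := Real.add_one_le_exp (Real.log (v / u) * -β)
    nlinarith
  have h5 : u ^ (-β - 1) = u ^ (-β) / u := by
    rw [Real.rpow_sub_one hu.ne']
  have h6 : 0 < u ^ (-β) := Real.rpow_pos_of_pos hu _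
  rw [h1, h5]
  have h7 : u ^ (-β) - u ^ (-β) * (v / u) ^ (-β) ≤ u ^ (-β) * (β * (v / u - 1)) := by
    nlinarith
  refine h7.trans (le_of_eq ?_)
  field_simp

theorem rp_anti (u v β : ℝ) (hu : 0 < u) (huv : u ≤ v) (hβ : 0 ≤ β) :
    v ^ (-β) ≤ u ^ (-β) :=
  Real.rpow_le_rpow_of_nonpos hu huv (by linarith)

theorem PP_sub_const {d : ℕ} (hd : 3 ≤ d) (f : Site d → ℝ) (c : ℝ) (x : Site d) :
    PP (fun y => f y - c) x = PP f x - c := by
  unfold PP
  rw [Finset.sum_sub_distrib]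
  have h1 : ∑ _e : Dir d, c = 2 * d * c := by
    rw [Finset.sum_const, Finset.card_univ]
    have : Fintype.card (Dir d) = d * 2 := by
      simp [Dir]
    rw [this]
    simp only [nsmul_eq_mul]
    push_cast
    ring
  rw [h1]
  have : (0 : ℝ) < d := by
    have : (3 : ℝ) ≤ d := by exact_mod_cast hd
    linarith
  field_simp

/-! ### the radii -/

theorem rad_nonneg (d t : ℕ) : 0 ≤ rad d t := by
  unfold rad
  apply Real.rpow_nonneg
  unfold om
  positivity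

theorem rad_pow {d : ℕ} (hd : 3 ≤ d) (hom : 0 < om d) (t : ℕ) : om d * rad d t ^ d = t := by
  unfold rad
  rw [← Real.rpow_natCast, ← Real.rpow_mul (by positivity)]
  have : (d : ℝ) ≠ 0 := by
    have : (3 : ℝ) ≤ d := by exact_mod_cast hd
    linarith
  rw [one_div_mul_cancel this, Real.rpow_one]
  field_simp

theorem rad_mono {d : ℕ} (hom : 0 < om d) {s t : ℕ} (h : s ≤ t) : rad d s ≤ rad d t := by
  unfold rad
  apply Real.rpow_le_rpow (by positivity)
  · apply div_le_div_of_nonneg_right _ hom.le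
    exact_mod_cast h
  · positivity

/-- number of launches whose domain contains a point -/
theorem count_le {d : ℕ} (hd : 3 ≤ d) (hom : 0 < om d) (n : ℕ) (δ r : ℝ) (hδ : 0 ≤ δ)
    (hr : 0 ≤ r) (hrR : r ≤ rad d (n + 1) + δ) :
    (((Icc 1 n).filter fun s => r ≤ rad d (s + 1) + δ).card : ℝ) ≤
      om d * d * rad d (n + 1) ^ (d - 1) * (rad d (n + 1) + δ - r) + 1 := by
  set ρ := rad d (n + 1) with hρ
  have hρ0 : 0 ≤ ρ := rad_nonneg _ _
  obtain ⟨τ, hτ⟩ : ∃ τ, τ = max 0 (r - δ) := ⟨_, rfl⟩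
  have hτ0 : 0 ≤ τ := by rw [hτ]; exact le_max_left _ _
  have hτρ : τ ≤ ρ := by
    rw [hτ]
    apply max_le hρ0
    linarith
  have hρτ : ρ - τ ≤ ρ + δ - r := by
    have : r - δ ≤ τ := by rw [hτ]; exact le_max_right _ _
    linarith
  have hn1 : om d * ρ ^ d = n + 1 := by
    have := rad_pow hd hom (n + 1)
    push_cast at this
    exact this
  have hpow : ρ ^ d - τ ^ d ≤ (ρ - τ) * d * ρ ^ (d - 1) := by
    have h1 := abs_pow_sub_pow_le ρ τ d
    rw [abs_of_nonneg hρ0, abs_of_nonneg hτ0, max_eq_left hτρ, abs_of_nonneg (by linarith : (0:ℝ) ≤ ρ - τ)] at h1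
    exact (le_abs_self _).trans h1
  have hceil : ⌈om d * τ ^ d⌉₊ ≤ n + 1 := by
    apply Nat.ceil_le.2
    push_cast
    rw [← hn1]
    gcongr
  have hsub : ((Icc 1 n).filter fun s => r ≤ rad d (s + 1) + δ).card ≤
      (Icc ⌈om d * τ ^ d⌉₊ (n + 1)).card := by
    apply Finset.card_le_card_of_injOn (fun s => s + 1)
    · intro s hs
      simp only [Finset.coe_filter, Finset.mem_Icc, Set.mem_ofPred_eq] at hs
      simp only [Finset.coe_Icc, Set.mem_Icc]
      refine ⟨?_, by omega⟩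
      apply Nat.ceil_le.2
      rw [← rad_pow hd hom (s + 1)]
      have : τ ≤ rad d (s + 1) := by
        rw [hτ]
        apply max_le (rad_nonneg _ _)
        linarith [hs.2]
      gcongr
    · intro s _ t _ h
      simpa using h
  rw [Nat.card_Icc] at hsub
  have h2 : ((n + 1 + 1 - ⌈om d * τ ^ d⌉₊ : ℕ) : ℝ) = (n : ℝ) + 1 + 1 - (⌈om d * τ ^ d⌉₊ : ℝ) := by
    rw [Nat.cast_sub (by omega)]
    push_cast
    ring
  have h3 : (((Icc 1 n).filter fun s => r ≤ rad d (s + 1) + δ).card : ℝ) ≤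
      (n : ℝ) + 1 + 1 - (⌈om d * τ ^ d⌉₊ : ℝ) := by
    rw [← h2]
    exact_mod_cast hsub
  have h4 : om d * τ ^ d ≤ (⌈om d * τ ^ d⌉₊ : ℝ) := Nat.le_ceil _
  have h5 : om d * (ρ ^ d - τ ^ d) ≤ om d * ((ρ - τ) * d * ρ ^ (d - 1)) := by
    gcongr
  have h6 : om d * ((ρ - τ) * d * ρ ^ (d - 1)) ≤ om d * d * ρ ^ (d - 1) * (ρ + δ - r) := by
    have : om d * ((ρ - τ) * d * ρ ^ (d - 1)) = om d * d * ρ ^ (d - 1) * (ρ - τ) := by ring
    rw [this]
    gcongr
  linarith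

/-! ### the sum of the test functions over the launches -/

/-- the test function of launch `s` -/
noncomputable def hs (d : ℕ) (a δ : ℝ) (s : ℕ) (x : Site d) : ℝ :=
  kk d a x - ((rad d (s + 1) + δ + 1) ^ 2 + a) ^ (-bt d)

theorem hs_le_kk {d : ℕ} (a δ : ℝ) (ha : 0 ≤ a) (s : ℕ) (x : Site d) : hs d a δ s x ≤ kk d a x := by
  unfold hs
  have : 0 ≤ ((rad d (s + 1) + δ + 1) ^ 2 + a) ^ (-bt d) := by positivity
  linarith

/-- far from the pole the number of launches is enough -/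
theorem Hfar {d : ℕ} (hd : 3 ≤ d) (hom : 0 < om d) (c₀ a δ : ℝ) (ha : 1 ≤ a) (hc : 0 < c₀)
    (n : ℕ) (z x : Site d) (h1 : c₀ * rad d (n + 1) ≤ nrm z) (hδ : 0 ≤ δ) :
    ∑ s ∈ (Icc 1 n).filter (fun s => nrm x ≤ rad d (s + 1) + δ), hs d a δ s x ≤
      om d / c₀ ^ d * nrm z ^ d * kk d a x := by
  have hkk : 0 ≤ kk d a x := by
    unfold kk
    have := nsq_nonneg x
    positivity
  have h2 : ∑ s ∈ (Icc 1 n).filter (fun s => nrm x ≤ rad d (s + 1) + δ), hs d a δ s x ≤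
      ((Icc 1 n).filter (fun s => nrm x ≤ rad d (s + 1) + δ)).card • kk d a x :=
    Finset.sum_le_card_nsmul _ _ _ fun s _ => hs_le_kk a δ (by linarith) s x
  refine h2.trans ?_
  rw [nsmul_eq_mul]
  apply mul_le_mul_of_nonneg_right _ hkk
  have h3 : ((Icc 1 n).filter (fun s => nrm x ≤ rad d (s + 1) + δ)).card ≤ n := by
    refine (Finset.card_filter_le _ _).trans ?_
    simp
  have h4 : (n : ℝ) ≤ om d * rad d (n + 1) ^ d := by
    rw [rad_pow hd hom]
    push_cast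
    linarith
  have h5 : rad d (n + 1) ≤ nrm z / c₀ := by
    rw [le_div_iff₀ hc]
    linarith
  have h6 : rad d (n + 1) ^ d ≤ (nrm z / c₀) ^ d := pow_le_pow_left₀ (rad_nonneg _ _) h5 _
  calc (((Icc 1 n).filter (fun s => nrm x ≤ rad d (s + 1) + δ)).card : ℝ) ≤ n := by
        exact_mod_cast h3
    _ ≤ om d * rad d (n + 1) ^ d := h4
    _ ≤ om d * (nrm z / c₀) ^ d := by gcongr
    _ = om d / c₀ ^ d * nrm z ^ d := by
        rw [div_pow]
        ring

/-- the constant of the next lemma -/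
noncomputable def CH (d : ℕ) (c₀ : ℝ) : ℝ :=
  4 * (13 * bt d * 4 ^ (d - 1) * (om d * d / c₀ ^ (d - 1) + 1)) + om d / c₀ ^ d * 4 ^ (d - 2)

theorem Hnear {d : ℕ} (hd : 3 ≤ d) (hom : 0 < om d) (c₀ a δ M : ℝ) (ha : 1 ≤ a) (hc : 0 < c₀)
    (n : ℕ) (z x : Site d) (h1 : c₀ * rad d (n + 1) ≤ nrm z) (hδ : 0 ≤ δ) (hM : 1 ≤ M)
    (hz1 : 1 ≤ nrm z) (hRM : rad d (n + 1) + δ ≤ nrm z + M)
    (hx : nrm x ≤ rad d (n + 1) + δ) (hzx : nrm z ≤ 4 * nrm x) :
    ∑ s ∈ (Icc 1 n).filter (fun s => nrm x ≤ rad d (s + 1) + δ), hs d a δ s x ≤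
      CH d c₀ * (M + nrm (x - z)) ^ 2 := by
  have hβ := bt_pos hd
  have hx0 : 0 < nrm x := by linarith
  have hρ0 : 0 ≤ rad d (n + 1) := rad_nonneg _ _
  have hr0 : 0 ≤ nrm (x - z) := nrm_nonneg _
  have hA0 : 0 ≤ 13 * bt d * 4 ^ (d - 1) * (om d * d / c₀ ^ (d - 1) + 1) := by positivity
  have hB0 : 0 ≤ om d / c₀ ^ d * 4 ^ (d - 2) := by positivity
  have hd3 : (3 : ℝ) ≤ d := by exact_mod_cast hd
  rcases le_or_gt M (nrm z) with hMz | hMz
  · -- few launches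
    set D1 := rad d (n + 1) + δ + 1 - nrm x with hD1
    have hD11 : 1 ≤ D1 := by rw [hD1]; linarith
    have hs1 : ∀ s ∈ (Icc 1 n).filter (fun s => nrm x ≤ rad d (s + 1) + δ),
        hs d a δ s x ≤ 13 * bt d * D1 * (4 ^ (d - 1) / nrm z ^ (d - 1)) := by
      intro s hs'
      rw [Finset.mem_filter, Finset.mem_Icc] at hs'
      obtain ⟨⟨_, hsn⟩, hxs⟩ := hs'
      have hmono : rad d (s + 1) ≤ rad d (n + 1) := rad_mono hom (by omega)
      have hu : 0 < nsq x + a := by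
        have := nsq_nonneg x
        linarith
      have huv : nsq x + a ≤ (rad d (s + 1) + δ + 1) ^ 2 + a := by
        rw [← nrm_sq]
        have : nrm x ≤ rad d (s + 1) + δ + 1 := by linarith
        gcongr
      have h2 := rp_sub (nsq x + a) ((rad d (s + 1) + δ + 1) ^ 2 + a) (bt d) hu huv hβ
      have h3 : hs d a δ s x = (nsq x + a) ^ (-bt d) - ((rad d (s + 1) + δ + 1) ^ 2 + a) ^ (-bt d) := rfl
      rw [h3]
      refine h2.trans ?_
      have h4 : (rad d (s + 1) + δ + 1) ^ 2 + a - (nsq x + a) ≤ D1 * (13 * nrm x) := by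
        rw [← nrm_sq]
        have e1 : (rad d (s + 1) + δ + 1) ^ 2 + a - (nrm x ^ 2 + a) =
            (rad d (s + 1) + δ + 1 - nrm x) * (rad d (s + 1) + δ + 1 + nrm x) := by ring
        rw [e1]
        apply mul_le_mul
        · rw [hD1]; linarith
        · linarith
        · have := rad_nonneg d (s + 1)
          linarith
        · linarith
      have h5 : (nsq x + a) ^ (-bt d - 1) ≤ (nrm x ^ d)⁻¹ := by
        have e2 : (-bt d - 1) = -((d : ℝ) / 2) := by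
          unfold bt
          ring
        rw [e2]
        have e3 : (nsq x + a) ^ (-((d : ℝ) / 2)) ≤ (nrm x ^ 2) ^ (-((d : ℝ) / 2)) := by
          apply rp_anti
          · positivity
          · rw [nrm_sq]; linarith
          · positivity
        refine e3.trans (le_of_eq ?_)
        rw [← Real.rpow_natCast (nrm x) 2, ← Real.rpow_mul hx0.le, ← Real.rpow_natCast (nrm x) d,
          ← Real.rpow_neg hx0.le]
        congr 1
        push_cast
        ring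
      have h6 : bt d * ((rad d (s + 1) + δ + 1) ^ 2 + a - (nsq x + a)) * (nsq x + a) ^ (-bt d - 1) ≤
          bt d * (D1 * (13 * nrm x)) * (nrm x ^ d)⁻¹ := by
        gcongr
      refine h6.trans ?_
      have h7 : bt d * (D1 * (13 * nrm x)) * (nrm x ^ d)⁻¹ = 13 * bt d * D1 * (nrm x ^ (d - 1))⁻¹ := by
        have e4 : nrm x ^ d = nrm x * nrm x ^ (d - 1) := by
          rw [← pow_succ']
          congr 1
          omega
        rw [e4]
        field_simp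
      rw [h7]
      have h8 : (nrm x ^ (d - 1))⁻¹ ≤ 4 ^ (d - 1) / nrm z ^ (d - 1) := by
        rw [← div_pow, ← inv_pow]
        apply pow_le_pow_left₀ (by positivity)
        rw [inv_le_comm₀ hx0 (by positivity), inv_div]
        linarith
      gcongr
    have hcard := count_le hd hom n δ (nrm x) hδ hx0.le hx
    set N := (Icc 1 n).filter (fun s => nrm x ≤ rad d (s + 1) + δ) with hN
    have h9 : ∑ s ∈ N, hs d a δ s x ≤ N.card • (13 * bt d * D1 * (4 ^ (d - 1) / nrm z ^ (d - 1))) :=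
      Finset.sum_le_card_nsmul _ _ _ hs1
    rw [nsmul_eq_mul] at h9
    have h10 : (N.card : ℝ) ≤ (om d * d * rad d (n + 1) ^ (d - 1) + 1) * D1 := by
      have e5 : rad d (n + 1) + δ - nrm x ≤ D1 := by rw [hD1]; linarith
      have e6 : om d * d * rad d (n + 1) ^ (d - 1) * (rad d (n + 1) + δ - nrm x) ≤
          om d * d * rad d (n + 1) ^ (d - 1) * D1 := by gcongr
      linarith
    have h11 : rad d (n + 1) ^ (d - 1) ≤ nrm z ^ (d - 1) / c₀ ^ (d - 1) := by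
      rw [← div_pow]
      apply pow_le_pow_left₀ hρ0
      rw [le_div_iff₀ hc]
      linarith
    have h12 : (om d * d * rad d (n + 1) ^ (d - 1) + 1) ≤
        (om d * d / c₀ ^ (d - 1) + 1) * nrm z ^ (d - 1) := by
      have e7 : om d * d * rad d (n + 1) ^ (d - 1) ≤ om d * d * (nrm z ^ (d - 1) / c₀ ^ (d - 1)) := by
        gcongr
      have e8 : (1 : ℝ) ≤ nrm z ^ (d - 1) := one_le_pow₀ hz1
      have e9 : om d * d * (nrm z ^ (d - 1) / c₀ ^ (d - 1)) = om d * d / c₀ ^ (d - 1) * nrm z ^ (d - 1) := by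
        ring
      rw [e9] at e7
      linarith
    have h13 : D1 ≤ 2 * (M + nrm (x - z)) := by
      have := nrm_le_add' x z
      rw [hD1]
      linarith
    have h14 : (N.card : ℝ) * (13 * bt d * D1 * (4 ^ (d - 1) / nrm z ^ (d - 1))) ≤
        ((om d * d / c₀ ^ (d - 1) + 1) * nrm z ^ (d - 1) * D1) *
          (13 * bt d * D1 * (4 ^ (d - 1) / nrm z ^ (d - 1))) := by
      apply mul_le_mul_of_nonneg_right _ (by positivity)
      refine h10.trans ?_
      gcongr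
    have h15 : ((om d * d / c₀ ^ (d - 1) + 1) * nrm z ^ (d - 1) * D1) *
          (13 * bt d * D1 * (4 ^ (d - 1) / nrm z ^ (d - 1))) =
        13 * bt d * 4 ^ (d - 1) * (om d * d / c₀ ^ (d - 1) + 1) * D1 ^ 2 := by
      have : nrm z ^ (d - 1) ≠ 0 := by positivity
      field_simp
    have h16 : D1 ^ 2 ≤ 4 * (M + nrm (x - z)) ^ 2 := by
      have : D1 ^ 2 ≤ (2 * (M + nrm (x - z))) ^ 2 := by gcongr
      linarith
    calc ∑ s ∈ N, hs d a δ s x ≤ _ := h9
      _ ≤ _ := h14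
      _ = 13 * bt d * 4 ^ (d - 1) * (om d * d / c₀ ^ (d - 1) + 1) * D1 ^ 2 := h15
      _ ≤ 13 * bt d * 4 ^ (d - 1) * (om d * d / c₀ ^ (d - 1) + 1) * (4 * (M + nrm (x - z)) ^ 2) := by
          gcongr
      _ ≤ CH d c₀ * (M + nrm (x - z)) ^ 2 := by
          unfold CH
          have : 0 ≤ om d / c₀ ^ d * 4 ^ (d - 2) * (M + nrm (x - z)) ^ 2 := by positivity
          linarith
  · -- `M` is large
    have h2 := Hfar hd hom c₀ a δ ha hc n z x h1 hδ
    have h3 : kk d a x ≤ 4 ^ (d - 2) / nrm z ^ (d - 2) := by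
      unfold kk
      have e3 : (nsq x + a) ^ (-bt d) ≤ (nrm x ^ 2) ^ (-bt d) := by
        apply rp_anti _ _ _ (by positivity) _ hβ.le
        rw [nrm_sq]; linarith
      refine e3.trans ?_
      have e4 : (nrm x ^ 2) ^ (-bt d) = (nrm x ^ (d - 2))⁻¹ := by
        rw [← Real.rpow_natCast (nrm x) 2, ← Real.rpow_mul hx0.le, ← Real.rpow_natCast (nrm x) (d - 2),
          ← Real.rpow_neg hx0.le]
        congr 1
        rw [Nat.cast_sub (by omega)]
        unfold bt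
        push_cast
        ring
      rw [e4, ← div_pow, ← inv_pow]
      apply pow_le_pow_left₀ (by positivity)
      rw [inv_le_comm₀ hx0 (by positivity), inv_div]
      linarith
    calc ∑ s ∈ (Icc 1 n).filter (fun s => nrm x ≤ rad d (s + 1) + δ), hs d a δ s x
        ≤ om d / c₀ ^ d * nrm z ^ d * kk d a x := h2
      _ ≤ om d / c₀ ^ d * nrm z ^ d * (4 ^ (d - 2) / nrm z ^ (d - 2)) := by gcongr
      _ = om d / c₀ ^ d * 4 ^ (d - 2) * nrm z ^ 2 := by
          have e4 : nrm z ^ d = nrm z ^ 2 * nrm z ^ (d - 2) := by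
            rw [← pow_add]
            congr 1
            omega
          have : nrm z ^ (d - 2) ≠ 0 := by positivity
          rw [e4]
          field_simp
      _ ≤ om d / c₀ ^ d * 4 ^ (d - 2) * (M + nrm (x - z)) ^ 2 := by
          gcongr
          linarith
      _ ≤ CH d c₀ * (M + nrm (x - z)) ^ 2 := by
          unfold CH
          have : 0 ≤ 4 * (13 * bt d * 4 ^ (d - 1) * (om d * d / c₀ ^ (d - 1) + 1)) *
            (M + nrm (x - z)) ^ 2 := by positivity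
          linarith

/-! ### pointwise bounds -/

theorem q_near {d : ℕ} (hd : 3 ≤ d) (K m M r q : ℝ) (hK : 0 ≤ K) (hm : 1 ≤ m) (hmM : m ≤ M)
    (hr : 0 ≤ r) (h1 : q ≤ K * (r ^ 2 + 1) ^ (-(2 * bt d)))
    (h2 : q ≤ K * m ^ 2 * (m + r) ^ 2 * (r ^ 2 + 1) ^ (-(d : ℝ))) :
    q * (M + r) ^ 2 ≤ 16 * K * M ^ 2 * (r ^ 2 + 1) ^ (-(2 * bt d)) := by
  have ht : 1 ≤ r ^ 2 + 1 := by nlinarith
  have ht0 : 0 < r ^ 2 + 1 := by linarith
  have hp1 : 0 < (r ^ 2 + 1) ^ (-(2 * bt d)) := Real.rpow_pos_of_pos ht0 _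
  have hp2 : 0 < (r ^ 2 + 1) ^ (-(d : ℝ)) := Real.rpow_pos_of_pos ht0 _
  have hMr : 0 ≤ M + r := by linarith
  rcases le_or_gt r M with h | h
  · calc q * (M + r) ^ 2 ≤ K * (r ^ 2 + 1) ^ (-(2 * bt d)) * (M + r) ^ 2 := by gcongr
      _ ≤ K * (r ^ 2 + 1) ^ (-(2 * bt d)) * (M + M) ^ 2 := by gcongr
      _ = 4 * K * M ^ 2 * (r ^ 2 + 1) ^ (-(2 * bt d)) := by ring
      _ ≤ 16 * K * M ^ 2 * (r ^ 2 + 1) ^ (-(2 * bt d)) := by
          apply mul_le_mul_of_nonneg_right _ hp1.le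
          have : 0 ≤ K * M ^ 2 := by positivity
          linarith
  · have e1 : (r ^ 2 + 1) ^ (-(2 * bt d)) = (r ^ 2 + 1) ^ 2 * (r ^ 2 + 1) ^ (-(d : ℝ)) := by
      rw [← Real.rpow_natCast (r ^ 2 + 1) 2, ← Real.rpow_add ht0]
      congr 1
      unfold bt
      push_cast
      ring
    have e2 : (m + r) ^ 2 ≤ 4 * (r ^ 2 + 1) := by
      have : (m + r) ^ 2 ≤ (r + r) ^ 2 := by
        have : m ≤ r := by linarith
        gcongr
      nlinarith
    have e3 : (M + r) ^ 2 ≤ 4 * (r ^ 2 + 1) := by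
      have : (M + r) ^ 2 ≤ (r + r) ^ 2 := by gcongr
      nlinarith
    calc q * (M + r) ^ 2 ≤ K * m ^ 2 * (m + r) ^ 2 * (r ^ 2 + 1) ^ (-(d : ℝ)) * (M + r) ^ 2 := by
          gcongr
      _ ≤ K * M ^ 2 * (4 * (r ^ 2 + 1)) * (r ^ 2 + 1) ^ (-(d : ℝ)) * (4 * (r ^ 2 + 1)) := by
          gcongr
      _ = 16 * K * M ^ 2 * ((r ^ 2 + 1) ^ 2 * (r ^ 2 + 1) ^ (-(d : ℝ))) := by ring
      _ = 16 * K * M ^ 2 * (r ^ 2 + 1) ^ (-(2 * bt d)) := by rw [e1]

theorem t_near {d : ℕ} (hd : 3 ≤ d) (r X : ℝ) (hr : 0 ≤ r) (hX : 1 ≤ X) (hrX : r ≤ 2 * X) :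
    (r ^ 2 + 1) ^ (-(2 * bt d)) ≤ 3 * X ^ ta d * (r ^ 2 + 1) ^ (-((d : ℝ) / 2)) := by
  have ht : 1 ≤ r ^ 2 + 1 := by nlinarith
  have ht0 : 0 < r ^ 2 + 1 := by linarith
  unfold ta
  split_ifs with h3
  · subst h3
    have e1 : (r ^ 2 + 1) ^ (-(2 * bt 3)) = (r ^ 2 + 1) ^ ((1 : ℝ) / 2) * (r ^ 2 + 1) ^ (-(((3 : ℕ) : ℝ) / 2)) := by
      rw [← Real.rpow_add ht0]
      congr 1
      unfold bt
      push_cast
      ring
    rw [e1, Real.rpow_one, ← Real.sqrt_eq_rpow]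
    apply mul_le_mul_of_nonneg_right _ (by positivity)
    rw [Real.sqrt_le_left (by linarith)]
    nlinarith
  · have h4 : 4 ≤ d := by omega
    have h4' : (4 : ℝ) ≤ d := by exact_mod_cast h4
    rw [Real.rpow_zero, mul_one]
    have e1 : (r ^ 2 + 1) ^ (-(2 * bt d)) ≤ (r ^ 2 + 1) ^ (-((d : ℝ) / 2)) := by
      apply Real.rpow_le_rpow_of_exponent_le ht
      unfold bt
      linarith
    have e2 : 0 < (r ^ 2 + 1) ^ (-((d : ℝ) / 2)) := Real.rpow_pos_of_pos ht0 _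
    linarith

theorem q_far {d : ℕ} (hd : 3 ≤ d) (K c₀ m r v q : ℝ) (hK : 0 ≤ K) (hc : 0 < c₀) (hc1 : c₀ ≤ 1)
    (hm : 1 ≤ m) (hv : 1 ≤ v) (hmv : c₀ * m ≤ v) (hr : 3 * v ≤ 4 * r)
    (h2 : q ≤ K * m ^ 2 * (m + r) ^ 2 * (r ^ 2 + 1) ^ (-(d : ℝ))) :
    q ≤ 9 * K * 4 ^ (d - 1) / c₀ ^ 2 * m ^ 2 / v ^ (2 * (d - 1)) := by
  have hr0 : 0 < r := by linarith
  have ht0 : 0 < r ^ 2 + 1 := by positivity
  have e1 : m + r ≤ 3 / c₀ * r := by
    have : m ≤ 2 / c₀ * r := by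
      rw [div_mul_eq_mul_div, le_div_iff₀ hc]
      linarith
    have h3 : r ≤ 1 / c₀ * r := by
      rw [div_mul_eq_mul_div, le_div_iff₀ hc]
      nlinarith
    have h4 : 3 / c₀ * r = 2 / c₀ * r + 1 / c₀ * r := by ring
    linarith
  have e2 : (m + r) ^ 2 ≤ 9 / c₀ ^ 2 * (r ^ 2 + 1) := by
    have h3 : (m + r) ^ 2 ≤ (3 / c₀ * r) ^ 2 := by gcongr
    have h4 : (3 / c₀ * r) ^ 2 = 9 / c₀ ^ 2 * r ^ 2 := by
      field_simp
      norm_num
    rw [h4] at h3
    refine h3.trans ?_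
    gcongr
    linarith
  have e3 : (r ^ 2 + 1) * (r ^ 2 + 1) ^ (-(d : ℝ)) = ((r ^ 2 + 1) ^ (d - 1))⁻¹ := by
    have : (r ^ 2 + 1) ^ (-(d : ℝ)) = ((r ^ 2 + 1) ^ d)⁻¹ := by
      rw [Real.rpow_neg ht0.le, Real.rpow_natCast]
    rw [this]
    have e4 : (r ^ 2 + 1) ^ d = (r ^ 2 + 1) * (r ^ 2 + 1) ^ (d - 1) := by
      rw [← pow_succ']
      congr 1
      omega
    rw [e4]
    field_simp
  have e5 : ((r ^ 2 + 1) ^ (d - 1))⁻¹ ≤ 4 ^ (d - 1) / v ^ (2 * (d - 1)) := by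
    rw [pow_mul, ← div_pow, ← inv_pow]
    apply pow_le_pow_left₀ (by positivity)
    rw [inv_le_comm₀ ht0 (by positivity), inv_div]
    rw [div_le_iff₀ (by norm_num)]
    nlinarith
  calc q ≤ K * m ^ 2 * (m + r) ^ 2 * (r ^ 2 + 1) ^ (-(d : ℝ)) := h2
    _ ≤ K * m ^ 2 * (9 / c₀ ^ 2 * (r ^ 2 + 1)) * (r ^ 2 + 1) ^ (-(d : ℝ)) := by gcongr
    _ = 9 * K / c₀ ^ 2 * m ^ 2 * ((r ^ 2 + 1) * (r ^ 2 + 1) ^ (-(d : ℝ))) := by ring
    _ ≤ 9 * K / c₀ ^ 2 * m ^ 2 * (4 ^ (d - 1) / v ^ (2 * (d - 1))) := by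
        rw [e3]
        gcongr
    _ = 9 * K * 4 ^ (d - 1) / c₀ ^ 2 * m ^ 2 / v ^ (2 * (d - 1)) := by ring

theorem v_far {d : ℕ} (hd : 3 ≤ d) (v X : ℝ) (hv : 1 ≤ v) (hvX : v ≤ X) :
    v ^ (d + 2) / v ^ (2 * (d - 1)) ≤ X ^ ta d := by
  have hv0 : 0 < v := by linarith
  unfold ta
  split_ifs with h3
  · subst h3
    rw [Real.rpow_one]
    have : v ^ (3 + 2) / v ^ (2 * (3 - 1)) = v := by
      norm_num
      field_simp
    rw [this]
    exact hvX
  · rw [Real.rpow_zero, div_le_one (by positivity)]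
    exact pow_le_pow_right₀ hv (by omega)

theorem t_QV1 : S_QV1 := by
  classical
  intro hSPR hDUA hCNT hLAT d c₀ K hd hc₀ hc₀1 hK
  obtain ⟨a, ha, -, hS⟩ := hSPR d hd
  obtain ⟨C0, hC0, hmm0, hmmx⟩ := hS a le_rfl
  obtain ⟨hom, -⟩ := hCNT d hd
  obtain ⟨CL, hCL, hL⟩ := hLAT d hd
  have hβ := bt_pos hd
  have hd3 : (3 : ℝ) ≤ d := by exact_mod_cast hd
  have ha1 : 1 ≤ a := by linarith
  obtain ⟨c, hc⟩ : ∃ c, c = kk d a 0 - PP (kk d a) 0 := ⟨_, rfl⟩
  have hcpos : 0 < c := by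
    unfold mm at hmm0
    rw [← hc] at hmm0
    have : 0 < 2 / ((d : ℝ) - 2) := by
      apply div_pos (by norm_num)
      linarith
    exact (mul_pos_iff_of_pos_left this).1 hmm0
  have hsup : ∀ x : Site d, PP (kk d a) x ≤ kk d a x := by
    intro x
    have h1 := (hmmx x).1
    unfold mm at h1
    have : 0 < 2 / ((d : ℝ) - 2) := by
      apply div_pos (by norm_num)
      linarith
    have h2 := nonneg_of_mul_nonneg_right h1 this
    linarith
  have hCH : 0 ≤ CH d c₀ := by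
    unfold CH
    positivity
  obtain ⟨A1, hA1⟩ : ∃ A1, A1 = CH d c₀ * (96 * K * CL) := ⟨_, rfl⟩
  obtain ⟨A2, hA2⟩ : ∃ A2, A2 = om d / c₀ ^ d * (9 * K * 4 ^ (d - 1) / c₀ ^ 2) * CL := ⟨_, rfl⟩
  have hA10 : 0 ≤ A1 := by rw [hA1]; positivity
  have hA20 : 0 ≤ A2 := by rw [hA2]; positivity
  refine ⟨(A1 + A2) / c + 1, ?_, ?_⟩
  · have : 0 ≤ (A1 + A2) / c := by positivity
    linarith
  intro n δ M m z q w hm hmM hδ hz1 hz2 hz3 hz4 hq0 hq hGP
  obtain ⟨ρ, hρ⟩ : ∃ ρ, ρ = rad d (n + 1) := ⟨_, rfl⟩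
  have hρ0 : 0 ≤ ρ := by rw [hρ]; exact rad_nonneg _ _
  have hzpos : 0 < nrm z := lt_of_lt_of_le (mul_pos hc₀ (by linarith)) hz2
  have hz : 1 ≤ nrm z := one_le_nrm z hzpos
  have hM : 1 ≤ M := hm.trans hmM
  obtain ⟨X, hX⟩ : ∃ X, X = rad d (n + 1) + δ + 1 := ⟨_, rfl⟩
  have hX1 : 1 ≤ X := by rw [hX, ← hρ]; linarith
  have hzX : nrm z ≤ X := by rw [hX]; exact hz3
  have hlog : 0 ≤ Real.log X := Real.log_nonneg hX1
  rw [← hX]
  have hXta : 0 < X ^ ta d := Real.rpow_pos_of_pos (by linarith) _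
  -- duality
  have hdual : ∀ s ∈ Icc 1 n, c * w s 0 ≤
      ∑ x ∈ bF d (rad d (n + 1) + δ), if nrm x ≤ rad d (s + 1) + δ then q x * hs d a δ s x else 0 := by
    intro s hs'
    rw [Finset.mem_Icc] at hs'
    have hR0 : 0 ≤ rad d (s + 1) + δ := by
      have := rad_nonneg d (s + 1)
      linarith
    have h1 := hDUA d (rad d (s + 1) + δ) q (w s) (hs d a δ s) hd hR0 (hGP s hs'.1 hs'.2) ?_ ?_
    · have h2 : hs d a δ s 0 - PP (hs d a δ s) 0 = c := by
        have h3 : PP (hs d a δ s) 0 = PP (kk d a) 0 - ((rad d (s + 1) + δ + 1) ^ 2 + a) ^ (-bt d) :=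
          PP_sub_const hd (kk d a) _ 0
        rw [h3, hc]
        unfold hs
        ring
      rw [h2] at h1
      refine h1.trans (le_of_eq ?_)
      rw [← Finset.sum_filter]
      apply Finset.sum_congr _ (fun _ _ => rfl)
      ext x
      rw [Finset.mem_filter, mem_bF, mem_bF]
      have hmono : rad d (s + 1) ≤ rad d (n + 1) := rad_mono hom (by omega)
      constructor
      · intro h
        exact ⟨by linarith, h⟩
      · intro h
        exact h.2
    · intro x hx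
      unfold hs kk
      have : ((rad d (s + 1) + δ + 1) ^ 2 + a) ^ (-bt d) ≤ (nsq x + a) ^ (-bt d) := by
        apply rp_anti _ _ _ _ _ hβ.le
        · have := nsq_nonneg x
          linarith
        · rw [← nrm_sq]
          have := nrm_nonneg x
          gcongr
      linarith
    · intro x _
      have h3 : PP (hs d a δ s) x = PP (kk d a) x - ((rad d (s + 1) + δ + 1) ^ 2 + a) ^ (-bt d) :=
        PP_sub_const hd (kk d a) _ x
      rw [h3]
      unfold hs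
      have := hsup x
      linarith
  have hsum : c * ∑ s ∈ Icc 1 n, w s 0 ≤
      ∑ x ∈ bF d (rad d (n + 1) + δ), q x *
        ∑ s ∈ (Icc 1 n).filter (fun s => nrm x ≤ rad d (s + 1) + δ), hs d a δ s x := by
    rw [Finset.mul_sum]
    refine (Finset.sum_le_sum hdual).trans (le_of_eq ?_)
    rw [Finset.sum_comm]
    apply Finset.sum_congr rfl
    intro x _
    rw [Finset.mul_sum, Finset.sum_filter]
  rw [← Finset.sum_filter_add_sum_filter_not _ (fun x => nrm z ≤ 4 * nrm x)] at hsum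
  -- near part
  have hnear : ∑ x ∈ (bF d (rad d (n + 1) + δ)).filter (fun x => nrm z ≤ 4 * nrm x), q x *
        ∑ s ∈ (Icc 1 n).filter (fun s => nrm x ≤ rad d (s + 1) + δ), hs d a δ s x ≤
      A1 * M ^ 2 * X ^ ta d * (1 + Real.log X) := by
    have h1 : ∀ x ∈ (bF d (rad d (n + 1) + δ)).filter (fun x => nrm z ≤ 4 * nrm x), q x *
        ∑ s ∈ (Icc 1 n).filter (fun s => nrm x ≤ rad d (s + 1) + δ), hs d a δ s x ≤
        CH d c₀ * (48 * K * M ^ 2 * X ^ ta d) * (nsq (x - z) + 1) ^ (-((d : ℝ) / 2)) := by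
      intro x hx
      rw [Finset.mem_filter, mem_bF] at hx
      obtain ⟨hxR, hxz⟩ := hx
      have h2 := Hnear hd hom c₀ a δ M ha1 hc₀ n z x hz1 hδ hM hz hz4 hxR hxz
      obtain ⟨hq1, hq2⟩ := hq x hxR
      rw [← nrm_sq (x - z)] at hq1 hq2 ⊢
      have h3 := q_near hd K m M (nrm (x - z)) (q x) (by linarith) hm hmM (nrm_nonneg _) hq1 hq2
      have h4 := t_near hd (nrm (x - z)) X (nrm_nonneg _) hX1 (by
        have := nrm_sub_le x z
        have : nrm x ≤ X := by rw [hX]; linarith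
        linarith)
      calc q x * ∑ s ∈ (Icc 1 n).filter (fun s => nrm x ≤ rad d (s + 1) + δ), hs d a δ s x
          ≤ q x * (CH d c₀ * (M + nrm (x - z)) ^ 2) := mul_le_mul_of_nonneg_left h2 (hq0 x)
        _ = CH d c₀ * (q x * (M + nrm (x - z)) ^ 2) := by ring
        _ ≤ CH d c₀ * (16 * K * M ^ 2 * (nrm (x - z) ^ 2 + 1) ^ (-(2 * bt d))) := by gcongr
        _ ≤ CH d c₀ * (16 * K * M ^ 2 *
              (3 * X ^ ta d * (nrm (x - z) ^ 2 + 1) ^ (-((d : ℝ) / 2)))) := by gcongr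
        _ = CH d c₀ * (48 * K * M ^ 2 * X ^ ta d) * (nrm (x - z) ^ 2 + 1) ^ (-((d : ℝ) / 2)) := by
            ring
    refine (Finset.sum_le_sum h1).trans ?_
    rw [← Finset.mul_sum]
    have h5 := ((hL (2 * X) z ((bF d (rad d (n + 1) + δ)).filter (fun x => nrm z ≤ 4 * nrm x))
      (by linarith)).1 (by
        intro y hy
        rw [Finset.mem_filter, mem_bF] at hy
        have h6 := nrm_sub_le y z
        have h7 : nrm y ≤ X := by rw [hX]; linarith [hy.1]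
        linarith)).2.2
    have h8 : Real.log (2 * X) ≤ 1 + Real.log X := by
      rw [Real.log_mul (by norm_num) (by linarith)]
      have := Real.log_two_lt_d9
      linarith
    calc CH d c₀ * (48 * K * M ^ 2 * X ^ ta d) *
          ∑ x ∈ (bF d (rad d (n + 1) + δ)).filter (fun x => nrm z ≤ 4 * nrm x),
            (nsq (x - z) + 1) ^ (-((d : ℝ) / 2))
        ≤ CH d c₀ * (48 * K * M ^ 2 * X ^ ta d) * (CL * (1 + Real.log (2 * X))) := by gcongr
      _ ≤ CH d c₀ * (48 * K * M ^ 2 * X ^ ta d) * (CL * (2 * (1 + Real.log X))) := by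
          gcongr
          linarith
      _ = A1 * M ^ 2 * X ^ ta d * (1 + Real.log X) := by
          rw [hA1]
          ring
  -- far part
  have hfar : ∑ x ∈ (bF d (rad d (n + 1) + δ)).filter (fun x => ¬ nrm z ≤ 4 * nrm x), q x *
        ∑ s ∈ (Icc 1 n).filter (fun s => nrm x ≤ rad d (s + 1) + δ), hs d a δ s x ≤
      A2 * M ^ 2 * X ^ ta d * (1 + Real.log X) := by
    have h1 : ∀ x ∈ (bF d (rad d (n + 1) + δ)).filter (fun x => ¬ nrm z ≤ 4 * nrm x), q x *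
        ∑ s ∈ (Icc 1 n).filter (fun s => nrm x ≤ rad d (s + 1) + δ), hs d a δ s x ≤
        9 * K * 4 ^ (d - 1) / c₀ ^ 2 * m ^ 2 / nrm z ^ (2 * (d - 1)) *
          (om d / c₀ ^ d * nrm z ^ d) * (nsq (x - 0) + 1) ^ (-bt d) := by
      intro x hx
      rw [Finset.mem_filter, mem_bF] at hx
      obtain ⟨hxR, hxz⟩ := hx
      rw [not_le] at hxz
      have h2 := Hfar hd hom c₀ a δ ha1 hc₀ n z x hz1 hδ
      obtain ⟨hq1, hq2⟩ := hq x hxR
      rw [← nrm_sq (x - z)] at hq2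
      have h3 := q_far hd K c₀ m (nrm (x - z)) (nrm z) (q x) (by linarith) hc₀ hc₀1 hm hz hz2 (by
        have := nrm_le_add' x z
        linarith) hq2
      have h4 : kk d a x ≤ (nsq (x - 0) + 1) ^ (-bt d) := by
        unfold kk
        rw [sub_zero]
        apply rp_anti _ _ _ _ _ hβ.le
        · have := nsq_nonneg x
          linarith
        · linarith
      calc q x * ∑ s ∈ (Icc 1 n).filter (fun s => nrm x ≤ rad d (s + 1) + δ), hs d a δ s x
          ≤ q x * (om d / c₀ ^ d * nrm z ^ d * kk d a x) := mul_le_mul_of_nonneg_left h2 (hq0 x)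
        _ ≤ q x * (om d / c₀ ^ d * nrm z ^ d * (nsq (x - 0) + 1) ^ (-bt d)) := by
            have := hq0 x
            gcongr
        _ ≤ (9 * K * 4 ^ (d - 1) / c₀ ^ 2 * m ^ 2 / nrm z ^ (2 * (d - 1))) *
              (om d / c₀ ^ d * nrm z ^ d * (nsq (x - 0) + 1) ^ (-bt d)) := by
            apply mul_le_mul_of_nonneg_right h3
            have := nsq_nonneg (x - 0)
            positivity
        _ = _ := by ring
    refine (Finset.sum_le_sum h1).trans ?_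
    rw [← Finset.mul_sum]
    have h5 := ((hL (nrm z) 0 ((bF d (rad d (n + 1) + δ)).filter (fun x => ¬ nrm z ≤ 4 * nrm x))
      hz).1 (by
        intro y hy
        rw [Finset.mem_filter, mem_bF, not_le] at hy
        rw [sub_zero]
        have := nrm_nonneg y
        linarith [hy.2])).2.1
    have h6 := v_far hd (nrm z) X hz hzX
    calc 9 * K * 4 ^ (d - 1) / c₀ ^ 2 * m ^ 2 / nrm z ^ (2 * (d - 1)) *
          (om d / c₀ ^ d * nrm z ^ d) *
          ∑ x ∈ (bF d (rad d (n + 1) + δ)).filter (fun x => ¬ nrm z ≤ 4 * nrm x),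
            (nsq (x - 0) + 1) ^ (-bt d)
        ≤ 9 * K * 4 ^ (d - 1) / c₀ ^ 2 * m ^ 2 / nrm z ^ (2 * (d - 1)) *
          (om d / c₀ ^ d * nrm z ^ d) * (CL * nrm z ^ 2) := by gcongr
      _ = A2 * m ^ 2 * (nrm z ^ (d + 2) / nrm z ^ (2 * (d - 1))) := by
          rw [hA2]
          ring
      _ ≤ A2 * M ^ 2 * X ^ ta d := by gcongr
      _ ≤ A2 * M ^ 2 * X ^ ta d * (1 + Real.log X) := by
          apply le_mul_of_one_le_right (by positivity)
          linarith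
  have hfin : c * ∑ s ∈ Icc 1 n, w s 0 ≤ (A1 + A2) * (M ^ 2 * X ^ ta d * (1 + Real.log X)) := by
    refine hsum.trans ?_
    have : (A1 + A2) * (M ^ 2 * X ^ ta d * (1 + Real.log X)) =
      A1 * M ^ 2 * X ^ ta d * (1 + Real.log X) + A2 * M ^ 2 * X ^ ta d * (1 + Real.log X) := by ring
    rw [this]
    exact add_le_add hnear hfar
  have hpos : 0 ≤ M ^ 2 * X ^ ta d * (1 + Real.log X) := by positivity
  have hfin2 : ∑ s ∈ Icc 1 n, w s 0 ≤ (A1 + A2) / c * (M ^ 2 * X ^ ta d * (1 + Real.log X)) := by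
    rw [div_mul_eq_mul_div, le_div_iff₀ hcpos]
    linarith
  calc ∑ s ∈ Icc 1 n, w s 0 ≤ (A1 + A2) / c * (M ^ 2 * X ^ ta d * (1 + Real.log X)) := hfin2
    _ ≤ ((A1 + A2) / c + 1) * (M ^ 2 * X ^ ta d * (1 + Real.log X)) := by
        apply mul_le_mul_of_nonneg_right _ hpos
        linarith
    _ = ((A1 + A2) / c + 1) * M ^ 2 * X ^ ta d * (1 + Real.log X) := by ring

end Pool.Agent.H86.BD
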