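import Pool.Agent.H76.BD.Geom
import Pool.Agent.H86.BD.QV1

set_option autoImplicit false

open scoped ENNReal
open Finset MeasureTheory

namespace Pool.Agent.H86.BD

open Pool.Agent.H3.BI Pool.Agent.H76.BD

/-- geometric facts at a point -/
structure Fc {d : ℕ} (CG N m : ℝ) (z x : Site d) : Prop where
  xN : nrm x ≤ N
  gap : m ≤ N - nrm x
  gap2 : N - nrm x ≤ 2 * m + nrm (x - z)
  SE : nsq (x - z) ≤ Ez N z x
  E1 : 1 ≤ Ez N z x
  tE : nsq (x - z) + 1 ≤ 2 * Ez N z x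
  Dup : Ez N z x - nsq (x - z) ≤ CG * (2 * m) * (N - nrm x)
  Dlo : 2 * m * (N - nrm x) ≤ CG * (Ez N z x - nsq (x - z))
  Dm : 2 * m ≤ Ez N z x - nsq (x - z)
  DE0 : 0 ≤ (Ez N z x - nsq (x - z)) / Ez N z x
  DE1 : (Ez N z x - nsq (x - z)) / Ez N z x ≤ 1

theorem facts {d : ℕ} {CG N m R : ℝ} {z x : Site d} (hCG : 1 ≤ CG) (hm : CG ≤ m)
    (hN : N = nrm z + 2 * m) (hR : R < nrm z)
    (hG : ∀ x : Site d, nrm x ≤ N → (N - nrm z) ^ 2 ≤ CG * Ez N z x ∧
        nsq (x - z) ≤ Ez N z x ∧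
        Ez N z x - nsq (x - z) ≤ CG * (N - nrm z) * (N - nrm x) ∧
        (N - nrm z) * (N - nrm x) ≤ CG * (Ez N z x - nsq (x - z)))
    (hx : nrm x ≤ R + 1) : Fc CG N m z x := by
  have hNz : N - nrm z = 2 * m := by rw [hN]; ring
  have hgap : m ≤ N - nrm x := by rw [hN]; linarith
  have hxN : nrm x ≤ N := by linarith
  obtain ⟨h1, h2, h3, h4⟩ := hG x hxN
  rw [hNz] at h1 h3 h4
  have hm0 : 0 < m := by linarith
  have hCG0 : 0 < CG := by linarith
  have hE1 : 1 ≤ Ez N z x := by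
    have e1 : CG * 1 ≤ CG * Ez N z x := by nlinarith
    exact le_of_mul_le_mul_left e1 hCG0
  have hS := nsq_nonneg (x - z)
  have hDm : 2 * m ≤ Ez N z x - nsq (x - z) := by
    have e1 : CG * (2 * m) ≤ CG * (Ez N z x - nsq (x - z)) := by nlinarith
    exact le_of_mul_le_mul_left e1 hCG0
  refine ⟨hxN, hgap, ?_, h2, hE1, by linarith, h3, h4, hDm, ?_, ?_⟩
  · have := nrm_le_add' x z
    rw [hN]
    linarith
  · apply div_nonneg
    · linarith
    · linarith
  · rw [div_le_one (by linarith)]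
    linarith

theorem delta_nbr {d : ℕ} {CG N m : ℝ} {z x y : Site d} (hCG : 1 ≤ CG) (hm : 1 ≤ m)
    (hx : Fc CG N m z x) (hy : Fc CG N m z y) (h1 : nrm y ≤ nrm x + 1) (h2 : nrm x ≤ nrm y + 1)
    (h3 : nsq (x - z) + 1 ≤ 3 * (nsq (y - z) + 1)) :
    (Ez N z y - nsq (y - z)) / Ez N z y ≤
      (2 * CG ^ 2) * (6 + 2 * CG ^ 2) * ((Ez N z x - nsq (x - z)) / Ez N z x) := by
  have hEx := hx.E1
  have hEy := hy.E1
  have hDx := hx.Dm
  have hDy := hy.Dm
  have hgx := hx.gap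
  have hgy := hy.gap
  have a1 : Ez N z y - nsq (y - z) ≤ 2 * CG ^ 2 * (Ez N z x - nsq (x - z)) := by
    have e1 := hy.Dup
    have e2 := hx.Dlo
    have e3 : N - nrm y ≤ 2 * (N - nrm x) := by linarith
    have e4 : CG * (2 * m) * (N - nrm y) ≤ CG * (2 * m) * (2 * (N - nrm x)) := by gcongr
    have e5 : CG * (2 * m) * (2 * (N - nrm x)) = 2 * CG * (2 * m * (N - nrm x)) := by ring
    have e6 : 2 * CG * (2 * m * (N - nrm x)) ≤ 2 * CG * (CG * (Ez N z x - nsq (x - z))) := by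
      gcongr
    nlinarith
  have a2 : Ez N z x - nsq (x - z) ≤ 2 * CG ^ 2 * (Ez N z y - nsq (y - z)) := by
    have e1 := hx.Dup
    have e2 := hy.Dlo
    have e3 : N - nrm x ≤ 2 * (N - nrm y) := by linarith
    have e4 : CG * (2 * m) * (N - nrm x) ≤ CG * (2 * m) * (2 * (N - nrm y)) := by gcongr
    have e5 : CG * (2 * m) * (2 * (N - nrm y)) = 2 * CG * (2 * m * (N - nrm y)) := by ring
    have e6 : 2 * CG * (2 * m * (N - nrm y)) ≤ 2 * CG * (CG * (Ez N z y - nsq (y - z))) := by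
      gcongr
    nlinarith
  have a3 : Ez N z x ≤ (6 + 2 * CG ^ 2) * Ez N z y := by
    have e1 : Ez N z x = nsq (x - z) + (Ez N z x - nsq (x - z)) := by ring
    have e2 := hy.tE
    have e3 := nsq_nonneg (y - z)
    have e4 : 2 * CG ^ 2 * (Ez N z y - nsq (y - z)) ≤ 2 * CG ^ 2 * Ez N z y := by
      gcongr
      linarith
    nlinarith
  have hx0 : 0 < Ez N z x := by linarith
  have hy0 : 0 < Ez N z y := by linarith
  rw [mul_div_assoc', div_le_div_iff₀ hy0 hx0]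
  calc (Ez N z y - nsq (y - z)) * Ez N z x
      ≤ (2 * CG ^ 2 * (Ez N z x - nsq (x - z))) * ((6 + 2 * CG ^ 2) * Ez N z y) := by
        apply mul_le_mul a1 a3 hx0.le
        have : 0 ≤ Ez N z x - nsq (x - z) := by linarith
        positivity
    _ = _ := by ring

theorem t_le {d : ℕ} {R : ℝ} {x z : Site d} (hR : 4 ≤ R) (hx : nrm x ≤ R + 1) (hz : nrm z ≤ R + 1) :
    nsq (x - z) + 1 ≤ 9 * R ^ 2 := by
  have h1 := nrm_sub_le x z
  have h2 := nrm_sq (x - z)
  have h3 := nrm_nonneg (x - z)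
  rw [← h2]
  nlinarith

theorem pow_e0 {t R e0 : ℝ} (ht : 1 ≤ t) (hR : 1 ≤ R) (htR : t ≤ 9 * R ^ 2) (he : e0 ≤ 1 / 2) :
    t ^ e0 ≤ 3 * R ^ (max 0 (2 * e0)) := by
  rcases le_or_gt e0 0 with h | h
  · rw [max_eq_left (by linarith), Real.rpow_zero]
    have := Real.rpow_le_one_of_one_le_of_nonpos ht h
    linarith
  · rw [max_eq_right (by linarith)]
    have h1 : t ^ e0 ≤ (9 * R ^ 2) ^ e0 := Real.rpow_le_rpow (by linarith) htR h.le
    have h2 : (9 * R ^ 2) ^ e0 = 9 ^ e0 * R ^ (2 * e0) := by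
      rw [Real.mul_rpow (by norm_num) (by positivity)]
      congr 1
      rw [← Real.rpow_natCast R 2, ← Real.rpow_mul (by linarith)]
      norm_num
    have h3 : (9 : ℝ) ^ e0 ≤ 3 := by
      calc (9 : ℝ) ^ e0 ≤ 9 ^ (1 / 2 : ℝ) := Real.rpow_le_rpow_of_exponent_le (by norm_num) he
        _ = 3 := by
          rw [← Real.sqrt_eq_rpow]
          rw [show (9 : ℝ) = 3 ^ 2 by norm_num]
          exact Real.sqrt_sq (by norm_num)
    rw [h2] at h1
    refine h1.trans ?_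
    apply mul_le_mul_of_nonneg_right h3 (by positivity)

theorem pow_ta {d : ℕ} (hd : 3 ≤ d) {R ε : ℝ} (hR : 1 ≤ R) (hε : 0 < ε) (hε2 : ε < 1 / 2) :
    R ^ (max 0 (4 - (d : ℝ) - ε)) * R ^ ε ≤ R ^ (ta d + ε) := by
  rw [← Real.rpow_add (by linarith)]
  apply Real.rpow_le_rpow_of_exponent_le hR
  unfold ta
  split_ifs with h
  · subst h
    rw [max_eq_right (by push_cast; linarith)]
    push_cast
    linarith
  · have h4 : 4 ≤ d := by omega
    have h4' : (4 : ℝ) ≤ d := by exact_mod_cast h4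
    rw [max_eq_left (by linarith)]

/-- lower bound near the pole -/
theorem near_bd {d : ℕ} (hd : 3 ≤ d) {CG CB N m u : ℝ} {z x : Site d} (hCG : 1 ≤ CG) (hCB : 1 ≤ CB)
    (hm : 1 ≤ m) (hx : Fc CG N m z x) (hxz : nrm (x - z) ≤ m)
    (hu : (nsq (x - z) + 1) ^ (-bt d) * ((Ez N z x - nsq (x - z)) / Ez N z x) ≤ CB * u) :
    1 / (2 * CG * CB * 2 ^ bt d * m ^ (d - 2)) ≤ u := by
  have hβ := bt_pos hd
  have hS := nrm_sq (x - z)
  have hn := nrm_nonneg (x - z)
  have hE := hx.E1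
  have hE0 : 0 < Ez N z x := by linarith
  have hδ : 1 / (2 * CG) ≤ (Ez N z x - nsq (x - z)) / Ez N z x := by
    rw [div_le_div_iff₀ (by positivity) hE0]
    have e1 := hx.Dlo
    have e2 := hx.gap
    have e3 : 2 * m * m ≤ CG * (Ez N z x - nsq (x - z)) := by
      have : 2 * m * m ≤ 2 * m * (N - nrm x) := by gcongr
      linarith
    have e4 : nsq (x - z) ≤ m ^ 2 := by
      rw [← hS]
      gcongr
    have e5 := hx.Dm
    nlinarith
  have ht : (2 ^ bt d * m ^ (d - 2))⁻¹ ≤ (nsq (x - z) + 1) ^ (-bt d) := by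
    have e1 : nsq (x - z) + 1 ≤ 2 * m ^ 2 := by
      rw [← hS]
      nlinarith
    have e2 : (2 * m ^ 2) ^ (-bt d) ≤ (nsq (x - z) + 1) ^ (-bt d) := by
      apply rp_anti _ _ _ _ e1 hβ.le
      have := nsq_nonneg (x - z)
      linarith
    refine le_trans (le_of_eq ?_) e2
    rw [Real.mul_rpow (by norm_num) (by positivity), mul_inv, Real.rpow_neg (by norm_num)]
    congr 1
    rw [← Real.rpow_natCast m 2, ← Real.rpow_mul (by linarith), ← Real.rpow_natCast m (d - 2),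
      ← Real.rpow_neg (by linarith)]
    congr 1
    rw [Nat.cast_sub (by omega)]
    unfold bt
    push_cast
    ring
  have h1 : (2 ^ bt d * m ^ (d - 2))⁻¹ * (1 / (2 * CG)) ≤ CB * u := by
    refine le_trans ?_ hu
    apply mul_le_mul ht hδ (by positivity)
    have := nsq_nonneg (x - z)
    positivity
  have h2 : 1 / (2 * CG * CB * 2 ^ bt d * m ^ (d - 2)) =
      (2 ^ bt d * m ^ (d - 2))⁻¹ * (1 / (2 * CG)) / CB := by
    field_simp
  rw [h2, div_le_iff₀ (by linarith)]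
  linarith

/-- the value at the origin -/
theorem zero_bd {d : ℕ} (hd : 3 ≤ d) {a b N m R : ℝ} {z : Site d} (ha : 0 ≤ a) (hb : 0 ≤ b)
    (hm : 1 ≤ m) (hbm : b ≤ m) (hN : N = nrm z + 2 * m) (hR : R < nrm z) (h4 : 4 * m ≤ R) :
    uS d a b N z 0 ≤ 5 * bt d * m / R ^ (d - 1) := by
  have hβ := bt_pos hd
  have hz0 : 0 < nrm z := by linarith
  have hR0 : 0 < R := by linarith
  have hN0 : 0 < N := by rw [hN]; linarith
  have hnz : nsq (0 - z) = nrm z ^ 2 := by
    rw [nrm_sq]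
    unfold nsq
    apply Finset.sum_congr rfl
    intro i _
    simp
  have hE0 : Ez N z 0 = N ^ 2 := by
    unfold Ez
    rw [hnz, ← nrm_sq z]
    have : nsq (0 : Site d) = 0 := by
      unfold nsq
      simp
    rw [this]
    field_simp
    ring
  have h1 : uS d a b N z 0 ≤ (nrm z ^ 2) ^ (-bt d) - (N ^ 2) ^ (-bt d) := by
    unfold uS
    rw [hE0, hnz]
    have e1 : (nrm z ^ 2 + a) ^ (-bt d) ≤ (nrm z ^ 2) ^ (-bt d) :=
      rp_anti _ _ _ (by positivity) (by linarith) hβ.le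
    have e2 : (N ^ 2) ^ (-bt d) ≤ (N ^ 2 - b) ^ (-bt d) := by
      apply rp_anti _ _ _ _ (by linarith) hβ.le
      rw [hN]
      nlinarith
    linarith
  refine h1.trans ?_
  have h2 := rp_sub (nrm z ^ 2) (N ^ 2) (bt d) (by positivity) (by rw [hN]; nlinarith) hβ
  refine h2.trans ?_
  have h3 : N ^ 2 - nrm z ^ 2 ≤ 5 * m * nrm z := by
    rw [hN]
    nlinarith
  have h5 : (nrm z ^ 2) ^ (-bt d - 1) = (nrm z ^ d)⁻¹ := by
    rw [← Real.rpow_natCast (nrm z) 2, ← Real.rpow_mul hz0.le, ← Real.rpow_natCast (nrm z) d,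
      ← Real.rpow_neg hz0.le]
    congr 1
    unfold bt
    push_cast
    ring
  have h6 : nrm z ^ d = nrm z * nrm z ^ (d - 1) := by
    rw [← pow_succ']
    congr 1
    omega
  rw [h5, h6]
  calc bt d * (N ^ 2 - nrm z ^ 2) * (nrm z * nrm z ^ (d - 1))⁻¹
      ≤ bt d * (5 * m * nrm z) * (nrm z * nrm z ^ (d - 1))⁻¹ := by gcongr
    _ = 5 * bt d * m / nrm z ^ (d - 1) := by field_simp
    _ ≤ 5 * bt d * m / R ^ (d - 1) := by gcongr

/-- second upper bound -/
theorem b2_bd {d : ℕ} (hd : 3 ≤ d) {CG CB N m u : ℝ} {z x : Site d} (hCG : 1 ≤ CG) (hCB : 1 ≤ CB)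
    (hm : 1 ≤ m) (hx : Fc CG N m z x)
    (hu : u ≤ CB * ((nsq (x - z) + 1) ^ (-bt d) * ((Ez N z x - nsq (x - z)) / Ez N z x))) :
    u ≤ 8 * CB * CG * m * (m + nrm (x - z)) * (nsq (x - z) + 1) ^ (-((d : ℝ) / 2)) := by
  have hE := hx.E1
  have hE0 : 0 < Ez N z x := by linarith
  have hS := nsq_nonneg (x - z)
  have ht0 : 0 < nsq (x - z) + 1 := by linarith
  have hn := nrm_nonneg (x - z)
  have hg := hx.gap
  have h1 : (nsq (x - z) + 1) ^ (-bt d) = (nsq (x - z) + 1) * (nsq (x - z) + 1) ^ (-((d : ℝ) / 2)) := by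
    nth_rewrite 2 [← Real.rpow_one (nsq (x - z) + 1)]
    rw [← Real.rpow_add ht0]
    congr 1
    unfold bt
    ring
  have h2 : (nsq (x - z) + 1) * ((Ez N z x - nsq (x - z)) / Ez N z x) ≤
      2 * (CG * (2 * m) * (2 * m + nrm (x - z))) := by
    rw [mul_div_assoc', div_le_iff₀ hE0]
    have e1 : Ez N z x - nsq (x - z) ≤ CG * (2 * m) * (2 * m + nrm (x - z)) := by
      refine hx.Dup.trans ?_
      have := hx.gap2
      gcongr
    have e2 := hx.tE
    have e3 := hx.Dm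
    calc (nsq (x - z) + 1) * (Ez N z x - nsq (x - z))
        ≤ (2 * Ez N z x) * (CG * (2 * m) * (2 * m + nrm (x - z))) := by
          apply mul_le_mul e2 e1 (by linarith) (by linarith)
      _ = _ := by ring
  have hp : 0 < (nsq (x - z) + 1) ^ (-((d : ℝ) / 2)) := Real.rpow_pos_of_pos ht0 _
  calc u ≤ CB * ((nsq (x - z) + 1) ^ (-bt d) * ((Ez N z x - nsq (x - z)) / Ez N z x)) := hu
    _ = CB * (((nsq (x - z) + 1) * ((Ez N z x - nsq (x - z)) / Ez N z x)) *
          (nsq (x - z) + 1) ^ (-((d : ℝ) / 2))) := by rw [h1]; ring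
    _ ≤ CB * ((2 * (CG * (2 * m) * (2 * m + nrm (x - z)))) *
          (nsq (x - z) + 1) ^ (-((d : ℝ) / 2))) := by gcongr
    _ ≤ CB * ((2 * (CG * (2 * m) * (2 * (m + nrm (x - z))))) *
          (nsq (x - z) + 1) ^ (-((d : ℝ) / 2))) := by
        gcongr
        linarith
    _ = 8 * CB * CG * m * (m + nrm (x - z)) * (nsq (x - z) + 1) ^ (-((d : ℝ) / 2)) := by ring

theorem usq_bd {d : ℕ} (hd : 3 ≤ d) {CG CB N m R : ℝ} {z x : Site d} (hCG : 1 ≤ CG) (hCB : 0 ≤ CB)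
    (hm : 1 ≤ m) (hx : nrm x ≤ R) (hfc : ∀ x : Site d, nrm x ≤ R + 1 → Fc CG N m z x)
    {u : Site d → ℝ} (hu0 : ∀ x : Site d, nrm x ≤ R + 1 → 0 ≤ u x)
    (hu : ∀ x : Site d, nrm x ≤ R + 1 →
      u x ≤ CB * ((nsq (x - z) + 1) ^ (-bt d) * ((Ez N z x - nsq (x - z)) / Ez N z x))) :
    PP (fun y => u y ^ 2) x ≤
        CB ^ 2 * 3 ^ (2 * bt d) * ((2 * CG ^ 2) * (6 + 2 * CG ^ 2)) *
          ((nsq (x - z) + 1) ^ (-(2 * bt d)) * ((Ez N z x - nsq (x - z)) / Ez N z x)) := by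
  have hβ := bt_pos hd
  have hf := hfc x (by linarith)
  apply PP_le_const (by omega)
  intro e
  have hy1 := nrm_add_uvec_le x e
  have hy2 := nrm_le_add_uvec x e
  have hyR : nrm (x + uvec e) ≤ R + 1 := by linarith
  have hfy := hfc _ hyR
  have hn3 : nsq (x - z) + 1 ≤ 3 * (nsq (x + uvec e - z) + 1) := by
    rw [sub_add_uvec]
    exact nsq_nbr _ _
  have hdel := delta_nbr hCG hm hf hfy hy1 hy2 hn3
  have hu := hu _ hyR
  have hu0 := hu0 _ hyR
  have hSy := nsq_nonneg (x + uvec e - z)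
  have hSx := nsq_nonneg (x - z)
  have hDy0 := hfy.DE0
  have hDy1 := hfy.DE1
  have hp := rpow_nbr (x - z) e (γ := 2 * bt d) (by linarith)
  rw [← sub_add_uvec] at hp
  have hsq : ((nsq (x + uvec e - z) + 1) ^ (-bt d)) ^ 2 = (nsq (x + uvec e - z) + 1) ^ (-(2 * bt d)) := by
    rw [← Real.rpow_natCast, ← Real.rpow_mul (by linarith)]
    congr 1
    push_cast
    ring
  have hpp : 0 ≤ (nsq (x + uvec e - z) + 1) ^ (-(2 * bt d)) := by positivity
  calc u (x + uvec e) ^ 2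
      ≤ (CB * ((nsq (x + uvec e - z) + 1) ^ (-bt d) *
          ((Ez N z (x + uvec e) - nsq (x + uvec e - z)) / Ez N z (x + uvec e)))) ^ 2 :=
        pow_le_pow_left₀ hu0 hu 2
    _ = CB ^ 2 * ((nsq (x + uvec e - z) + 1) ^ (-(2 * bt d)) *
          ((Ez N z (x + uvec e) - nsq (x + uvec e - z)) / Ez N z (x + uvec e)) ^ 2) := by
        rw [← hsq]; ring
    _ ≤ CB ^ 2 * ((nsq (x + uvec e - z) + 1) ^ (-(2 * bt d)) *
          ((Ez N z (x + uvec e) - nsq (x + uvec e - z)) / Ez N z (x + uvec e))) := by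
        apply mul_le_mul_of_nonneg_left _ (by positivity)
        apply mul_le_mul_of_nonneg_left _ hpp
        exact pow_le_of_le_one hDy0 hDy1 (by norm_num)
    _ ≤ CB ^ 2 * ((3 ^ (2 * bt d) * (nsq (x - z) + 1) ^ (-(2 * bt d))) *
          ((2 * CG ^ 2) * (6 + 2 * CG ^ 2) * ((Ez N z x - nsq (x - z)) / Ez N z x))) := by
        apply mul_le_mul_of_nonneg_left _ (by positivity)
        exact mul_le_mul hp hdel hDy0 (by positivity)
    _ = _ := by ring

theorem t_OUT : S_OUT := by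
  intro hGEO hSUH hBND hFSH hOM d ε hd hε hε2
  have hβ := bt_pos hd
  have hd3 : (3 : ℝ) ≤ d := by exact_mod_cast hd
  obtain ⟨CG, hCG, hG⟩ := hGEO d (1 / 2) hd (by norm_num) (by norm_num)
  obtain ⟨a1, ha1, hS⟩ := hSUH d hd
  obtain ⟨a2, ha2, hO⟩ := hOM d hd
  obtain ⟨a, hadef⟩ : ∃ a, a = max a1 a2 := ⟨_, rfl⟩
  have haa1 : a1 ≤ a := by rw [hadef]; exact le_max_left _ _
  have haa2 : a2 ≤ a := by rw [hadef]; exact le_max_right _ _
  have ha3 : 3 ≤ a := ha1.trans haa1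
  obtain ⟨CS, hCS, hS'⟩ := hS a a (1 / 2) haa1 haa1 (by norm_num) (by norm_num)
  obtain ⟨CO, hCO, hO'⟩ := hO a a haa2 haa2
  obtain ⟨al, hal⟩ : ∃ al, al = (d : ℝ) - 2 - ε := ⟨_, rfl⟩
  have hal0 : 0 < al := by rw [hal]; linarith
  have hal1 : al < (d : ℝ) - 2 := by rw [hal]; linarith
  obtain ⟨CB, hCB, hB⟩ := hBND d a a al (1 / 2) hd (by linarith) (by linarith) hal0
    (by norm_num) (by norm_num)
  obtain ⟨a4, ha4, hF⟩ := hFSH d al (1 / 2) hd hal0 hal1 (by norm_num) (by norm_num)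
  obtain ⟨CF, hCF, hF'⟩ := hF a4 le_rfl
  obtain ⟨CB', hCB', hB'⟩ := hBND d a4 0 al (1 / 2) hd (by linarith) (by norm_num) hal0
    (by norm_num) (by norm_num)
  -- constants
  obtain ⟨Cd, hCd⟩ : ∃ Cd, Cd = (2 * CG ^ 2) * (6 + 2 * CG ^ 2) := ⟨_, rfl⟩
  have hCd0 : 0 ≤ Cd := by rw [hCd]; positivity
  obtain ⟨C1, hC1⟩ : ∃ C1, C1 = 3 * (CB ^ 2 * 3 ^ (2 * bt d) * Cd) * CF := ⟨_, rfl⟩
  have hC10 : 0 ≤ C1 := by rw [hC1]; positivity
  obtain ⟨c2, hc2⟩ : ∃ c2, c2 = 8 * CB * CG := ⟨_, rfl⟩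
  obtain ⟨c3, hc3⟩ : ∃ c3, c3 = C1 * CB' * 3 * CB := ⟨_, rfl⟩
  obtain ⟨c4, hc4⟩ : ∃ c4, c4 = 5 * bt d := ⟨_, rfl⟩
  obtain ⟨c5, hc5⟩ : ∃ c5, c5 = 2 * CG * CB * 2 ^ bt d := ⟨_, rfl⟩
  have hc20 : 0 ≤ c2 := by rw [hc2]; positivity
  have hc30 : 0 ≤ c3 := by rw [hc3]; positivity
  have hc40 : 0 ≤ c4 := by rw [hc4]; positivity
  have hc50 : 0 < c5 := by rw [hc5]; positivity
  obtain ⟨C, hC⟩ : ∃ C, C = CG + CS + CO + CB + CF + CB' + a + c2 + c3 + c4 + c5 := ⟨_, rfl⟩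
  refine ⟨C, by linarith, ?_⟩
  intro R m z hCm hmR hRz hzR
  have hm1 : 1 ≤ m := by linarith
  have hCGm : CG ≤ m := by linarith
  have hR4 : 4 ≤ R := by linarith
  obtain ⟨N, hN⟩ : ∃ N, N = nrm z + 2 * m := ⟨_, rfl⟩
  have hz0 : 0 < nrm z := by linarith
  have hN0 : 0 < N := by rw [hN]; linarith
  have hgeo : ∀ c : ℝ, c ≤ m → Geo (1 / 2) c N z := by
    intro c hc
    refine ⟨?_, ?_⟩
    · rw [hN]; linarith
    · rw [hN]; linarith
  obtain ⟨zs, -, hG2, -⟩ := hG N z (hgeo 1 hm1)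
  have hfc : ∀ x : Site d, nrm x ≤ R + 1 → Fc CG N m z x := fun x hx =>
    facts hCG hCGm hN hRz hG2 hx
  have hbn : ∀ x : Site d, nrm x ≤ R + 1 →
      (nsq (x - z) + 1) ^ (-bt d) * ((Ez N z x - nsq (x - z)) / Ez N z x) ≤
        CB * uS d a a N z x ∧
      uS d a a N z x ≤
        CB * ((nsq (x - z) + 1) ^ (-bt d) * ((Ez N z x - nsq (x - z)) / Ez N z x)) := by
    intro x hx
    have hf := hfc x hx
    have h1 := hB N z (hgeo CB (by linarith)) x hf.xN (by have := hf.Dm; linarith)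
    exact ⟨h1.1, h1.2.1⟩
  have hbn' : ∀ x : Site d, nrm x ≤ R + 1 →
      (nsq (x - z) + 1) ^ (-(al / 2)) * ((Ez N z x - nsq (x - z)) / Ez N z x) ≤
        CB' * fS d a4 al N z x ∧
      fS d a4 al N z x ≤
        CB' * ((nsq (x - z) + 1) ^ (-(al / 2)) * ((Ez N z x - nsq (x - z)) / Ez N z x)) := by
    intro x hx
    have hf := hfc x hx
    have h1 := hB' N z (hgeo CB' (by linarith)) x hf.xN (by have := hf.Dm; linarith)
    exact ⟨h1.2.2.1, h1.2.2.2⟩
  have hnn : ∀ x : Site d, nrm x ≤ R + 1 → 0 ≤ uS d a a N z x := by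
    intro x hx
    have hf := hfc x hx
    have h1 := (hbn x hx).1
    have hS0 := nsq_nonneg (x - z)
    have h2 : 0 ≤ (nsq (x - z) + 1) ^ (-bt d) * ((Ez N z x - nsq (x - z)) / Ez N z x) :=
      mul_nonneg (by positivity) hf.DE0
    exact nonneg_of_mul_nonneg_right (h2.trans h1) (by linarith)
  have hfnn : ∀ x : Site d, nrm x ≤ R + 1 → 0 ≤ fS d a4 al N z x := by
    intro x hx
    have hf := hfc x hx
    have h1 := (hbn' x hx).1
    have hS0 := nsq_nonneg (x - z)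
    have h2 : 0 ≤ (nsq (x - z) + 1) ^ (-(al / 2)) * ((Ez N z x - nsq (x - z)) / Ez N z x) :=
      mul_nonneg (by positivity) hf.DE0
    exact nonneg_of_mul_nonneg_right (h2.trans h1) (by linarith)
  obtain ⟨κ, hκ⟩ : ∃ κ, κ = max 0 (4 - (d : ℝ) - ε) := ⟨_, rfl⟩
  have hRκ : 0 < R ^ κ := Real.rpow_pos_of_pos (by linarith) _
  have hRε : 0 < R ^ ε := Real.rpow_pos_of_pos (by linarith) _
  refine ⟨uS d a a N z, fun x => C1 * R ^ κ * fS d a4 al N z x, ?_⟩
  refine ⟨hnn, ?_, ?_, ?_, ?_, ?_, ?_, ?_, ?_, ?_⟩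
  · -- b1
    intro x hx
    have hf := hfc x hx
    have hS0 := nsq_nonneg (x - z)
    calc uS d a a N z x
        ≤ CB * ((nsq (x - z) + 1) ^ (-bt d) * ((Ez N z x - nsq (x - z)) / Ez N z x)) := (hbn x hx).2
      _ ≤ CB * ((nsq (x - z) + 1) ^ (-bt d) * 1) := by
          have := hf.DE1
          gcongr
      _ ≤ C * (nsq (x - z) + 1) ^ (-bt d) := by
          rw [mul_one]
          gcongr
          linarith
  · -- b2
    intro x hx
    have hf := hfc x hx
    have hS0 := nsq_nonneg (x - z)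
    have hn := nrm_nonneg (x - z)
    have h1 := b2_bd hd hCG hCB hm1 hf (hbn x hx).2
    refine h1.trans ?_
    rw [← hc2]
    gcongr
    linarith
  · -- sup
    intro x hx
    exact (hS' N z (hgeo CS (by linarith)) x (by rw [hN]; linarith)).1
  · -- wnn
    intro x hx
    have := hfnn x hx
    positivity
  · -- wle
    intro x hx
    have hf := hfc x hx
    have hS0 := nsq_nonneg (x - z)
    have ht1 : 1 ≤ nsq (x - z) + 1 := by linarith
    have ht := t_le hR4 hx hzR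
    have h1 : (nsq (x - z) + 1) ^ (-(al / 2)) =
        (nsq (x - z) + 1) ^ (ε / 2) * (nsq (x - z) + 1) ^ (-bt d) := by
      rw [← Real.rpow_add (by linarith)]
      congr 1
      rw [hal]
      unfold bt
      ring
    have h2 : (nsq (x - z) + 1) ^ (ε / 2) ≤ 3 * R ^ ε := by
      have := pow_e0 (e0 := ε / 2) ht1 (by linarith) ht (by linarith)
      rw [max_eq_right (by linarith)] at this
      have e : 2 * (ε / 2) = ε := by ring
      rwa [e] at this
    have h3 := (hbn' x hx).2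
    have h4 := (hbn x hx).1
    have h5 : (nsq (x - z) + 1) ^ (-(al / 2)) * ((Ez N z x - nsq (x - z)) / Ez N z x) ≤
        3 * R ^ ε * (CB * uS d a a N z x) := by
      rw [h1, mul_assoc]
      apply mul_le_mul h2 h4
      · exact mul_nonneg (by positivity) hf.DE0
      · positivity
    have h6 := pow_ta hd (R := R) (by linarith) hε hε2
    rw [← hκ] at h6
    have h7 := hnn x hx
    calc C1 * R ^ κ * fS d a4 al N z x
        ≤ C1 * R ^ κ * (CB' * (3 * R ^ ε * (CB * uS d a a N z x))) := by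
          apply mul_le_mul_of_nonneg_left _ (by positivity)
          refine h3.trans ?_
          gcongr
      _ = c3 * (R ^ κ * R ^ ε) * uS d a a N z x := by rw [hc3]; ring
      _ ≤ C * R ^ (ta d + ε) * uS d a a N z x := by
          apply mul_le_mul_of_nonneg_right _ h7
          exact mul_le_mul (by linarith) h6 (by positivity) (by linarith)
  · -- wsup
    intro x hx
    have hx1 : nrm x ≤ R + 1 := by linarith
    have hf := hfc x hx1
    have hS0 := nsq_nonneg (x - z)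
    have ht1 : 1 ≤ nsq (x - z) + 1 := by linarith
    have ht := t_le hR4 hx1 hzR
    have hDE0 := hf.DE0
    rw [PP_smul]
    have h1 : PP (fun y => uS d a a N z y ^ 2) x ≤
        CB ^ 2 * 3 ^ (2 * bt d) * Cd * ((nsq (x - z) + 1) ^ (-(2 * bt d)) *
          ((Ez N z x - nsq (x - z)) / Ez N z x)) := by
      rw [hCd]
      exact usq_bd hd hCG (by linarith) hm1 hx hfc (fun y hy => hnn y hy) (fun y hy => (hbn y hy).2)
    have h2 : (nsq (x - z) + 1) ^ (-(2 * bt d)) =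
        (nsq (x - z) + 1) ^ ((4 - (d : ℝ) - ε) / 2) * (nsq (x - z) + 1) ^ (-(al / 2) - 1) := by
      rw [← Real.rpow_add (by linarith)]
      congr 1
      rw [hal]
      unfold bt
      ring
    have h3 : (nsq (x - z) + 1) ^ ((4 - (d : ℝ) - ε) / 2) ≤ 3 * R ^ κ := by
      have := pow_e0 (e0 := (4 - (d : ℝ) - ε) / 2) ht1 (by linarith) ht (by linarith)
      have e : 2 * ((4 - (d : ℝ) - ε) / 2) = 4 - (d : ℝ) - ε := by ring
      rw [e, ← hκ] at this
      exact this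
    have h4 := hF' N z (hgeo CF (by linarith)) x (by rw [hN]; linarith)
      (by have := hf.Dm; linarith)
    have h5 : (nsq (x - z) + 1) ^ (-(2 * bt d)) * ((Ez N z x - nsq (x - z)) / Ez N z x) ≤
        3 * R ^ κ * (CF * (fS d a4 al N z x - PP (fS d a4 al N z) x)) := by
      rw [h2, mul_assoc]
      apply mul_le_mul h3 h4
      · positivity
      · positivity
    have h6 : PP (fun y => uS d a a N z y ^ 2) x ≤
        C1 * R ^ κ * (fS d a4 al N z x - PP (fS d a4 al N z) x) := by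
      refine h1.trans ?_
      calc CB ^ 2 * 3 ^ (2 * bt d) * Cd * ((nsq (x - z) + 1) ^ (-(2 * bt d)) *
            ((Ez N z x - nsq (x - z)) / Ez N z x))
          ≤ CB ^ 2 * 3 ^ (2 * bt d) * Cd *
            (3 * R ^ κ * (CF * (fS d a4 al N z x - PP (fS d a4 al N z) x))) := by
            gcongr
        _ = _ := by rw [hC1]; ring
    linarith
  · -- zero
    have h1 := zero_bd hd (a := a) (b := a) (by linarith) (by linarith) hm1 (by linarith) hN hRz hmR
    rw [← hc4] at h1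
    refine h1.trans ?_
    have hR0 : 0 < R := by linarith
    gcongr
    linarith
  · -- near
    intro x hx hxz
    have hf := hfc x hx
    have h1 := near_bd hd hCG hCB hm1 hf hxz (hbn x hx).1
    rw [← hc5] at h1
    refine le_trans ?_ h1
    have hm0 : 0 < m := by linarith
    apply one_div_le_one_div_of_le (by positivity)
    gcongr
    linarith
  · -- tot
    intro ρ h hh1 hhm h3 hCρ hρm hρR
    have h1 := hO' R m z (by linarith) hmR hRz hzR ρ h hh1 hhm h3 (by linarith) hρm hρR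
    rw [← hN] at h1
    refine h1.trans ?_
    have hR1 : 0 ≤ Real.log R := Real.log_nonneg (by linarith)
    have : 0 ≤ m / h := by positivity
    gcongr
    linarith

end Pool.Agent.H86.BD
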